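import Mathlib
import Pool.Agent.H317.GH.Stm

/-! # Project GH, GDT: the congruence data of a group in the genus -/

set_option autoImplicit false

namespace Pool.Agent.H664.GH

open Matrix Module Pool.Agent.H317.GR Pool.Agent.H317.GH

theorem gdt (hLIM : S_LIM) (hPAD : S_PAD) (hPAI : S_PAI) (hTRZ : S_TRZ) (hFAC : S_FAC)
    (hKER : S_KER) : S_GDT := by
  intro n hn Λ _ hG
  obtain ⟨hfg, hrf, hq⟩ := hG
  have : Group.FG Λ := hfg
  have h1 : QLE Λ (SZ n) := fun Q _ _ h => (hq Q).1 h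
  have h2 : QLE (SZ n) Λ := fun Q _ _ h => (hq Q).2 h
  obtain ⟨f, hfs, hfc⟩ := hLIM n Λ h2
  have hP : ∀ (p : ℕ) (hp : Fact p.Prime), ∃ ρ : Λ →* SpecialLinearGroup (Fin n) ℤ_[p],
      DenseP ρ ∧ ∀ (k : ℕ) (g : Λ),
        SpecialLinearGroup.map (PadicInt.toZModPow k) (ρ g) = f (p ^ k) g :=
    fun p hp => hPAD n Λ f hfc hfs p
  choose ρ hρd hρk using hP
  obtain ⟨ψ, hψ⟩ := hTRZ n hn Λ h1 h2 (fun p hp => ρ p hp) (fun p hp => hρd p hp)
  have hres : ∀ g : Λ, (∀ M, 0 < M → f M g = 1) → g = 1 := by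
    intro g hg
    by_contra hne
    obtain ⟨H, hH, hgH⟩ := hrf g hne
    have : H.FiniteIndex := ⟨hH⟩
    have : Finite (Λ ⧸ H.normalCore) := Subgroup.finite_quotient_of_finiteIndex
    obtain ⟨M, hM, hM2⟩ := hFAC n hn Λ h1 (Λ ⧸ H.normalCore)
    have h3 := hM2 (f M) (hfs M hM) (QuotientGroup.mk' H.normalCore)
      ((f M).mem_ker.2 (hg M hM))
    rw [QuotientGroup.ker_mk'] at h3
    exact hgH (H.normalCore_le h3)
  have hAI : ∀ (p : ℕ) (hp : Fact p.Prime), AI ((toQ n p).comp (ρ p hp)) :=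
    fun p hp => (hPAI n hn p Λ (ρ p hp) (hρd p hp)).2.2.1
  have hker : ∀ (p : ℕ) (hp : Fact p.Prime) (g : Λ), ρ p hp g = 1 → g = 1 := fun p hp g hg =>
    hres g (hKER n Λ f hfc (fun p hp => ρ p hp) (fun p hp => hρk p hp)
      (fun p hp => hAI p hp) ψ (fun p hp => hψ p) p g hg)
  refine ⟨f, fun p hp => ρ p hp, hfs, hfc, fun p hp => hρk p hp, fun p hp => hρd p hp,
    fun p hp => ?_, hres⟩
  rw [injective_iff_map_eq_one]
  exact hker p hp

end Pool.Agent.H664.GH
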